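import Mathlib
import Pool.Agent.Lib.helper9.Birkhoff

set_option autoImplicit false

namespace Pool.Agent.Results.MP_894476_an.Yes

open MeasureTheory Filter Topology Set MeasurableSpace Metric Pool.Agent.Lib.helper9.Birkhoff
open scoped ENNReal

theorem tail {X : Type*} [MeasurableSpace X] {μ : Measure X} [IsProbabilityMeasure μ] {h : X → ℝ}
    (hm : Measurable h) (h0 : ∀ x, 0 ≤ h x) {q C : ℝ} (hq : 1 < q)
    (hC : ∀ t, 1 < t → μ.real {x | t < h x} ≤ C * t ^ (-q)) : Integrable h μ := by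
  refine ⟨hm.aestronglyMeasurable, ?_⟩
  rw [hasFiniteIntegral_iff_ofReal (Eventually.of_forall h0),
    lintegral_eq_lintegral_meas_lt μ (Eventually.of_forall h0) hm.aemeasurable,
    ← Ioc_union_Ioi_eq_Ioi zero_le_one]
  refine (lintegral_union_le _ _ _).trans_lt (ENNReal.add_lt_top.2 ⟨?_, ?_⟩)
  · refine (lintegral_mono fun t => prob_le_one).trans_lt ?_
    simp
  · have i := (integrableOn_Ioi_rpow_of_lt (a := -q) (by linarith) one_pos).const_mul C
    refine lt_of_le_of_lt (setLIntegral_mono' measurableSet_Ioi fun t ht => ?_) i.2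
    rw [← ofReal_measureReal, Real.enorm_eq_ofReal_abs]
    exact ENNReal.ofReal_le_ofReal ((hC t ht).trans (le_abs_self _))

theorem maxint {X : Type*} [MeasurableSpace X] {μ : Measure X} [IsProbabilityMeasure μ]
    {T : X → X} (hT : MeasurePreserving T μ μ) {ψ : X → ℝ} (hm : Measurable ψ) {p : ℝ≥0∞}
    (hp : 1 < p) (hψ : MemLp ψ p μ) (K : ℕ) :
    Integrable (fun x => ⨆ j, |birkhoffAverage ℝ T ψ (j + K) x|) μ := by
  have l1 : 1 < min p 2 := lt_min hp ENNReal.one_lt_two
  have l2 : min p 2 ≠ ∞ := ne_top_of_le_ne_top ENNReal.ofNat_ne_top (min_le_right _ _)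
  have i1 := (hψ.mono_exponent (min_le_left p 2)).integrable_norm_rpow (by positivity) l2
  have hq : 1 < (min p 2).toReal := by
    simpa using (ENNReal.toReal_lt_toReal ENNReal.one_ne_top l2).2 l1
  set q := (min p 2).toReal
  have i2 : Integrable (fun x => |ψ x|) μ := (hψ.integrable hp.le).abs
  refine tail (Measurable.iSup fun j => (meas_avg hT.measurable hm _).abs)
    (fun x => Real.iSup_nonneg fun j => abs_nonneg _) hq
    (C := 2 ^ q * ∫ x, ‖ψ x‖ ^ q ∂μ) fun t ht => ?_
  have t0 : 0 < t := by linarith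
  have w := weak hT hm.abs i2 t0.le
  set E := {x | ∃ k, t < birkhoffAverage ℝ T (fun x => |ψ x|) k x}
  have sub : {x | t < ⨆ j, |birkhoffAverage ℝ T ψ (j + K) x|} ⊆ E := fun x hx => by
    obtain ⟨j, hj⟩ := exists_lt_of_lt_ciSup (mem_ofPred_eq ▸ hx :)
    refine ⟨j + K, hj.trans_le ?_⟩
    simp only [birkhoffAverage, smul_eq_mul, abs_mul, abs_inv, Nat.abs_cast, birkhoffSum]
    gcongr
    exact Finset.abs_sum_le_sum_abs _ _
  refine (measureReal_mono sub).trans ?_
  have pt : ∀ x, |ψ x| ≤ t / 2 + (t / 2) ^ (1 - q) * ‖ψ x‖ ^ q := by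
    intro x
    rcases le_total |ψ x| (t / 2) with a | a
    · exact a.trans (le_add_of_nonneg_right (by positivity))
    · have b : 0 < |ψ x| := lt_of_lt_of_le (by positivity) a
      have : |ψ x| ^ (1 - q) ≤ (t / 2) ^ (1 - q) :=
        Real.rpow_le_rpow_of_nonpos (by positivity) a (by linarith)
      have e : |ψ x| = |ψ x| ^ (1 - q) * |ψ x| ^ q := by
        rw [← Real.rpow_add b]; simp
      rw [Real.norm_eq_abs]
      calc |ψ x| = |ψ x| ^ (1 - q) * |ψ x| ^ q := e
        _ ≤ (t / 2) ^ (1 - q) * |ψ x| ^ q := by gcongr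
        _ ≤ _ := le_add_of_nonneg_left (by positivity)
  have h1 : ∫ x in E, |ψ x| ∂μ ≤ ∫ x in E, (t / 2 + (t / 2) ^ (1 - q) * ‖ψ x‖ ^ q) ∂μ :=
    integral_mono i2.integrableOn ((integrable_const _).add (i1.const_mul _).integrableOn) pt
  rw [integral_add (integrable_const _) (i1.const_mul _).integrableOn, setIntegral_const,
    integral_const_mul, smul_eq_mul] at h1
  have h2 : ∫ x in E, ‖ψ x‖ ^ q ∂μ ≤ ∫ x, ‖ψ x‖ ^ q ∂μ :=
    setIntegral_le_integral i1 (Eventually.of_forall fun x => by positivity)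
  have h3 := mul_le_mul_of_nonneg_left h2 (show 0 ≤ (t / 2) ^ (1 - q) by positivity)
  have e : (t / 2) ^ (1 - q) = t / 2 * (2 ^ q * t ^ (-q)) := by
    rw [sub_eq_add_neg, Real.rpow_add (by positivity), Real.rpow_one,
      Real.div_rpow t0.le zero_le_two, Real.rpow_neg zero_le_two]
    field_simp
  rw [e] at h1 h3
  refine le_of_mul_le_mul_left ?_ (half_pos t0)
  linarith

theorem result : ∀ (X : Type) [MetricSpace X] [MeasurableSpace X] [BorelSpace X] (μ : Measure X)
    [IsProbabilityMeasure μ],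
    (∀ f : X → ℝ, Integrable f μ →
      ∀ᵐ x ∂μ, Tendsto (fun r => ⨍ y in ball x r, f y ∂μ) (𝓝[>] 0) (𝓝 (f x))) →
    ∀ T : X → X, MeasurePreserving T μ μ → ∀ p : ℝ≥0∞, 1 < p → ∀ f : X → ℝ, MemLp f p μ →
      ∀ᵐ x ∂μ, Tendsto (fun q : ℝ × ℕ => ⨍ y in ball x q.1, birkhoffAverage ℝ T f q.2 y ∂μ)
        (𝓝[>] 0 ×ˢ atTop) (𝓝 (μ[f | invariants T] x)) := by
  intro X _ _ _ μ _ hL T hT p hp f hf
  have hs : Measurable[invariants T] (μ[f | invariants T]) := stronglyMeasurable_condExp.measurable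
  have gp : MemLp (μ[f | invariants T]) p μ := hf.condExp hp.le
  have hb := birkhoff hT (hf.integrable hp.le)
  set g := μ[f | invariants T] with hg
  have gT : g ∘ T = g := comp_eq_of_measurable_invariants hs
  have mg : Measurable g := hs.mono (invariants_le T) le_rfl
  have ef := hf.1.ae_eq_mk
  set f' := hf.1.mk f
  have mψ : Measurable (f' - g) := hf.1.measurable_mk.sub mg
  have pψ : MemLp (f' - g) p μ := (hf.ae_eq ef).sub gp
  have ea : ∀ᵐ y ∂μ, ∀ n, n ≠ 0 →
      birkhoffAverage ℝ T f n y = birkhoffAverage ℝ T (f' - g) n y + g y := by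
    filter_upwards [ae_all_iff.2 fun n =>
      hT.quasiMeasurePreserving.birkhoffAverage_ae_eq_of_ae_eq ℝ ef n] with y c n n0
    rw [c, birkhoffAverage_sub, Pi.sub_apply, Pi.sub_apply,
      birkhoffAverage_of_comp_eq ℝ gT (Nat.cast_ne_zero.2 n0), sub_add_cancel]
  have z : ∀ᵐ y ∂μ, Tendsto (fun n => |birkhoffAverage ℝ T (f' - g) n y|) atTop (𝓝 0) := by
    filter_upwards [ea, hb] with y a b
    have := (b.sub_const (g y)).abs
    rw [sub_self, abs_zero] at this
    refine this.congr' ?_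
    filter_upwards [eventually_ne_atTop 0] with n n0
    rw [a n n0, add_sub_cancel_right]
  have mi := maxint hT mψ hp pψ
  filter_upwards [z, hL g (gp.integrable hp.le), ae_all_iff.2 fun K => hL _ (mi K)] with x a b c
  rw [Metric.tendsto_nhds]
  intro ε hε
  obtain ⟨K, hK⟩ := eventually_atTop.1 ((a.eventually_lt_const (show 0 < ε / 3 by positivity)).and
    (eventually_ne_atTop 0))
  have u : ⨆ j, |birkhoffAverage ℝ T (f' - g) (j + K) x| < ε / 2 :=
    (ciSup_le fun j => (hK _ (Nat.le_add_left K j)).1.le).trans_lt (by linarith)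
  filter_upwards [(((c K).eventually_lt_const u).and (Metric.tendsto_nhds.1 b _
    (half_pos hε))).prod_mk (eventually_ge_atTop K)] with ⟨r, k⟩ ⟨⟨h1, h2⟩, h3⟩
  simp only at h1 h2 h3 ⊢
  have ia := int_avg hT (pψ.integrable hp.le) k
  have e : ⨍ y in ball x r, birkhoffAverage ℝ T f k y ∂μ =
      ⨍ y in ball x r, birkhoffAverage ℝ T (f' - g) k y ∂μ + ⨍ y in ball x r, g y ∂μ := by
    simp only [setAverage_eq]
    rw [← smul_add, ← integral_add ia.integrableOn (gp.integrable hp.le).integrableOn]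
    congr 1
    exact integral_congr_ae (ae_restrict_of_ae (ea.mono fun y hy => hy k (hK k h3).2))
  have l : |⨍ y in ball x r, birkhoffAverage ℝ T (f' - g) k y ∂μ| ≤
      ⨍ y in ball x r, ⨆ j, |birkhoffAverage ℝ T (f' - g) (j + K) y| ∂μ := by
    simp only [setAverage_eq, smul_eq_mul, abs_mul, abs_inv, abs_of_nonneg measureReal_nonneg]
    gcongr
    refine abs_integral_le_integral_abs.trans (integral_mono_ae ia.abs.integrableOn
      (mi K).integrableOn (ae_restrict_of_ae (z.mono fun y hy => ?_)))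
    have bd := ((tendsto_add_atTop_iff_nat K).2 hy).bddAbove_range
    have := le_ciSup bd (k - K)
    rwa [Nat.sub_add_cancel h3] at this
  rw [Real.dist_eq] at h2 ⊢
  rw [e, add_sub_assoc]
  linarith [abs_add_le (⨍ y in ball x r, birkhoffAverage ℝ T (f' - g) k y ∂μ)
    (⨍ y in ball x r, g y ∂μ - g x)]

end Pool.Agent.Results.MP_894476_an.Yes
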